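import Mathlib
import Pool.Agent.H23.DM.La1

/-!
The deterministic part of (I2) (helper93, MP_d9606f_gt): linear window lemma.

Along the orbit of `y`: vectors `V0 j`, distances `d0 j ≤ ρ`, `j ≤ L`; `B j` are the matrices of the
backward cocycle on the expanding part; hence `vn (B 0 *ᵥ V0 0)` is very small.
Along the orbit of the shifted point: vectors `V1 j`, distances `d1 j`, `j ≤ R`, the same vector at
time `0` and the same splitting; hence `d1 j ≤ ρ'`.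
-/

set_option linter.unusedSectionVars false

open Matrix Pool.Agent.H23.DM

namespace Pool.Agent.H93.SH

variable {ι : Type} [Fintype ι] [DecidableEq ι]

/-- telescoping -/
theorem tele_eq {A G : ℕ → Matrix ι ι ℝ} {V : ℕ → ι → ℝ} (N : ℕ)
    (h : ∀ j < N, G (j + 1) * A j = G j) :
    G N *ᵥ V N = G 0 *ᵥ V 0 + ∑ j ∈ Finset.range N, G (j + 1) *ᵥ (V (j + 1) - A j *ᵥ V j) := by
  induction N with
  | zero => simp
  | succ N ih =>
    rw [Finset.sum_range_succ, ← add_assoc, ← ih fun j hj => h j (by omega), Matrix.mulVec_sub,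
      Matrix.mulVec_mulVec, h N (by omega)]
    abel

theorem vn_sum_le {s : Finset ℕ} {f : ℕ → ι → ℝ} : vn (∑ j ∈ s, f j) ≤ ∑ j ∈ s, vn (f j) := by
  classical
  induction s using Finset.induction_on with
  | empty => simp [vn]
  | insert a s ha ih =>
    rw [Finset.sum_insert ha, Finset.sum_insert ha]
    exact (vn_add_le _ _).trans (add_le_add le_rfl ih)

/-- backward telescoping -/
theorem tele_back {A G : ℕ → Matrix ι ι ℝ} {V : ℕ → ι → ℝ} (N : ℕ)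
    (h : ∀ j < N, G (j + 1) * A j = G j) {E : ℝ}
    (hG : ∀ j < N, fn (G (j + 1)) ≤ 1) (hE : ∀ j < N, vn (V (j + 1) - A j *ᵥ V j) ≤ E) :
    vn (G 0 *ᵥ V 0) ≤ vn (G N *ᵥ V N) + N * E := by
  have h1 := tele_eq (V := V) N h
  have h2 : G 0 *ᵥ V 0 = G N *ᵥ V N - ∑ j ∈ Finset.range N, G (j + 1) *ᵥ (V (j + 1) - A j *ᵥ V j) := by
    rw [h1]
    abel
  rw [h2]
  refine (vn_sub_le _ _).trans (add_le_add le_rfl ?_)
  refine vn_sum_le.trans ?_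
  refine (Finset.sum_le_card_nsmul (Finset.range N) _ E fun j hj => ?_).trans (le_of_eq ?_)
  · have hj' := Finset.mem_range.1 hj
    refine (vn_mulVec_le _ _).trans ?_
    refine (mul_le_mul (hG j hj') (hE j hj') (vn_nonneg _) zero_le_one).trans ?_
    rw [one_mul]
  · rw [Finset.card_range, nsmul_eq_mul]

/-- forward telescoping -/
theorem tele_forw {A G : ℕ → Matrix ι ι ℝ} {V : ℕ → ι → ℝ} (N : ℕ)
    (h : ∀ j < N, G (j + 1) * A j = G j) {E g : ℝ} (hg : 0 ≤ g)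
    (hG : ∀ j < N, fn (G (j + 1)) ≤ g) (hE : ∀ j < N, vn (V (j + 1) - A j *ᵥ V j) ≤ E) :
    vn (G N *ᵥ V N) ≤ vn (G 0 *ᵥ V 0) + N * (g * E) := by
  rw [tele_eq (V := V) N h]
  refine (vn_add_le _ _).trans (add_le_add le_rfl ?_)
  refine vn_sum_le.trans ?_
  refine (Finset.sum_le_card_nsmul (Finset.range N) _ (g * E) fun j hj => ?_).trans (le_of_eq ?_)
  · have hj' := Finset.mem_range.1 hj
    refine (vn_mulVec_le _ _).trans ?_
    exact mul_le_mul (hG j hj') (hE j hj') (vn_nonneg _) hg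
  · rw [Finset.card_range, nsmul_eq_mul]

/-- The distance is recovered from the part of the vector outside the last summand. -/
theorem dist_of_low {s s4 P : Matrix ι ι ℝ} {V : ι → ℝ} {d Cg Cq g4 : ℝ} (hs : s + s4 = 1)
    (h4 : s4 * P = 0) (hg4 : fn s4 ≤ g4) (hd : 0 ≤ d) (hCg : 0 ≤ Cg)
    (hq : vn (V - P *ᵥ V) ≤ Cq * d ^ 2) (hge : d ≤ Cg * vn (P *ᵥ V))
    (hsm : 2 * Cg * Cq * (g4 + 1) * d ≤ 1) : d ≤ 2 * Cg * vn (s *ᵥ V) := by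
  have e1 : P *ᵥ V = s *ᵥ V + (s4 *ᵥ (V - P *ᵥ V) - (V - P *ᵥ V)) := by
    have e2 : s4 *ᵥ (P *ᵥ V) = 0 := by rw [Matrix.mulVec_mulVec, h4, Matrix.zero_mulVec]
    have e3 : s *ᵥ V = V - s4 *ᵥ V := by
      have : s = 1 - s4 := by rw [← hs]; abel
      rw [this, Matrix.sub_mulVec, Matrix.one_mulVec]
    rw [Matrix.mulVec_sub, e2, e3]
    abel
  have h1 : vn (P *ᵥ V) ≤ vn (s *ᵥ V) + (g4 + 1) * (Cq * d ^ 2) := by
    rw [e1]
    refine (vn_add_le _ _).trans (add_le_add le_rfl ?_)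
    refine (vn_sub_le _ _).trans ?_
    rw [add_mul, one_mul]
    refine add_le_add ?_ hq
    refine (vn_mulVec_le _ _).trans ?_
    exact mul_le_mul hg4 hq (vn_nonneg _) ((fn_nonneg _).trans hg4)
  have h2 : d ≤ Cg * vn (s *ᵥ V) + d / 2 := by
    calc d ≤ Cg * vn (P *ᵥ V) := hge
      _ ≤ Cg * (vn (s *ᵥ V) + (g4 + 1) * (Cq * d ^ 2)) := mul_le_mul_of_nonneg_left h1 hCg
      _ = Cg * vn (s *ᵥ V) + (2 * Cg * Cq * (g4 + 1) * d) * (d / 2) := by ring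
      _ ≤ Cg * vn (s *ᵥ V) + 1 * (d / 2) := by
        refine add_le_add le_rfl (mul_le_mul_of_nonneg_right hsm (by linarith))
      _ = _ := by ring
  linarith

/-- **The deterministic window lemma.** -/
theorem window {L R : ℕ} {A0 B A1 s s4 : ℕ → Matrix ι ι ℝ} {G : Fin 3 → ℕ → ℕ → Matrix ι ι ℝ}
    {P : Matrix ι ι ℝ} {V0 V1 : ℕ → ι → ℝ} {d0 d1 : ℕ → ℝ}
    {ρ ρ' β g g' g4 E E1 Cv Cq Cg δ0 Kt : ℝ}
    (hd0 : ∀ j ≤ L, d0 j ≤ ρ) (hV0 : ∀ j ≤ L, vn (V0 j) ≤ Cv * d0 j)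
    (hB : ∀ j < L, B (j + 1) * A0 j = B j) (hB1 : ∀ j < L, fn (B (j + 1)) ≤ 1)
    (hBL : fn (B L) ≤ β) (herr0 : ∀ j < L, vn (V0 (j + 1) - A0 j *ᵥ V0 j) ≤ E)
    (hV : V1 0 = V0 0) (hG3 : ∀ N ≤ R, G 2 0 N * B 0 = G 2 0 N)
    (hG : ∀ i, ∀ N ≤ R, ∀ j < N, G i (j + 1) N * A1 j = G i j N)
    (hs : ∀ N ≤ R, G 0 N N + G 1 N N + G 2 N N = s N) (hs4 : ∀ N ≤ R, s N + s4 N = 1)
    (h4P : ∀ N ≤ R, s4 N * P = 0)
    (hG01 : ∀ N ≤ R, fn (G 0 0 N) ≤ g ∧ fn (G 1 0 N) ≤ g)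
    (hG' : ∀ i, ∀ N ≤ R, ∀ j ≤ N, fn (G i j N) ≤ g') (hg4 : ∀ N ≤ R, fn (s4 N) ≤ g4)
    (hd1 : ∀ j ≤ R, 0 ≤ d1 j) (hd10 : d1 0 = d0 0) (hstep : ∀ j < R, d1 (j + 1) ≤ Kt * d1 j)
    (herr1 : ∀ j < R, d1 j ≤ ρ' → vn (V1 (j + 1) - A1 j *ᵥ V1 j) ≤ E1)
    (hq : ∀ j ≤ R, vn (V1 j - P *ᵥ V1 j) ≤ Cq * d1 j ^ 2)
    (hge : ∀ j ≤ R, d1 j ≤ δ0 → d1 j ≤ Cg * vn (P *ᵥ V1 j))
    (hρ0 : 0 ≤ ρ) (hρρ : ρ ≤ ρ') (hCg : 0 ≤ Cg) (hCq : 0 ≤ Cq) (hCv : 0 ≤ Cv)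
    (hE1 : 0 ≤ E1) (hKt : 1 ≤ Kt)
    (n1 : Kt * ρ' ≤ δ0) (n2 : 2 * Cg * Cq * (g4 + 1) * (Kt * ρ') ≤ 1)
    (n3 : 2 * Cg * (2 * g * (Cv * ρ) + g' * (β * (Cv * ρ) + L * E) + 3 * (R * (g' * E1))) ≤ ρ') :
    ∀ N ≤ R, d1 N ≤ ρ' := by
  have hR0 : (0 : ℕ) ≤ R := Nat.zero_le _
  have hg0 : 0 ≤ g := (fn_nonneg _).trans (hG01 0 hR0).1
  have hg'0 : 0 ≤ g' := (fn_nonneg _).trans (hG' 0 0 hR0 0 le_rfl)
  have hg40 : 0 ≤ g4 := (fn_nonneg _).trans (hg4 0 hR0)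
  have hρ'0 : 0 ≤ ρ' := hρ0.trans hρρ
  have hVL : ∀ j ≤ L, vn (V0 j) ≤ Cv * ρ := fun j hj =>
    (hV0 j hj).trans (mul_le_mul_of_nonneg_left (hd0 j hj) hCv)
  have hB0 : vn (B 0 *ᵥ V0 0) ≤ β * (Cv * ρ) + L * E := by
    refine (tele_back (V := V0) L hB hB1 herr0).trans (add_le_add ?_ le_rfl)
    refine (vn_mulVec_le _ _).trans ?_
    exact mul_le_mul hBL (hVL L le_rfl) (vn_nonneg _) ((fn_nonneg _).trans hBL)
  intro N
  induction N using Nat.strong_induction_on with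
  | _ N ih =>
    intro hN
    by_cases hN0 : N = 0
    · rw [hN0, hd10]
      exact (hd0 0 (Nat.zero_le _)).trans hρρ
    have hpre : d1 N ≤ Kt * ρ' := by
      obtain ⟨M, rfl⟩ := Nat.exists_eq_succ_of_ne_zero hN0
      refine (hstep M (by omega)).trans ?_
      exact mul_le_mul_of_nonneg_left (ih M (by omega) (by omega)) (by linarith)
    have hrec : ∀ i, vn (G i N N *ᵥ V1 N) ≤ vn (G i 0 N *ᵥ V1 0) + N * (g' * E1) := by
      intro i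
      refine tele_forw (A := A1) (G := fun j => G i j N) N (fun j hj => hG i N hN j hj) hg'0
        (fun j hj => hG' i N hN (j + 1) (by omega)) fun j hj => ?_
      exact herr1 j (by omega) (ih j hj (by omega))
    have hNR : (N : ℝ) ≤ R := by exact_mod_cast hN
    have hNE : (N : ℝ) * (g' * E1) ≤ R * (g' * E1) :=
      mul_le_mul_of_nonneg_right hNR (mul_nonneg hg'0 hE1)
    have hV00 : vn (V1 0) ≤ Cv * ρ := by
      rw [hV]
      exact hVL 0 (Nat.zero_le _)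
    have hCvρ : 0 ≤ Cv * ρ := mul_nonneg hCv hρ0
    have b0 : vn (G 0 0 N *ᵥ V1 0) ≤ g * (Cv * ρ) :=
      (vn_mulVec_le _ _).trans (mul_le_mul (hG01 N hN).1 hV00 (vn_nonneg _) hg0)
    have b1 : vn (G 1 0 N *ᵥ V1 0) ≤ g * (Cv * ρ) :=
      (vn_mulVec_le _ _).trans (mul_le_mul (hG01 N hN).2 hV00 (vn_nonneg _) hg0)
    have b2 : vn (G 2 0 N *ᵥ V1 0) ≤ g' * (β * (Cv * ρ) + L * E) := by
      rw [← hG3 N hN, ← Matrix.mulVec_mulVec, hV]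
      exact (vn_mulVec_le _ _).trans (mul_le_mul (hG' 2 N hN 0 (Nat.zero_le _)) hB0 (vn_nonneg _)
        hg'0)
    have hsum : vn (s N *ᵥ V1 N) ≤
        2 * g * (Cv * ρ) + g' * (β * (Cv * ρ) + L * E) + 3 * (R * (g' * E1)) := by
      rw [← hs N hN, Matrix.add_mulVec, Matrix.add_mulVec]
      have r0 := hrec 0
      have r1 := hrec 1
      have r2 := hrec 2
      have t1 := vn_add_le (G 0 N N *ᵥ V1 N + G 1 N N *ᵥ V1 N) (G 2 N N *ᵥ V1 N)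
      have t2 := vn_add_le (G 0 N N *ᵥ V1 N) (G 1 N N *ᵥ V1 N)
      linarith
    have hlow := dist_of_low (hs4 N hN) (h4P N hN) (hg4 N hN) (hd1 N hN) hCg (hq N hN)
      (hge N hN (hpre.trans n1)) (le_trans (mul_le_mul_of_nonneg_left hpre (by positivity)) n2)
    refine hlow.trans (le_trans ?_ n3)
    exact mul_le_mul_of_nonneg_left hsum (by linarith)

end Pool.Agent.H93.SH
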