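import Mathlib

/-!
Numerical estimates for (I2) (helper93, MP_d9606f_gt).
-/

set_option linter.unusedSectionVars false

open Filter
open scoped Topology

namespace Pool.Agent.H93.SH

theorem ev_small {c : ℝ} (hc : 0 < c) (M : ℝ) : ∀ᶠ T : ℕ in atTop, M * Real.exp (-(T : ℝ)) ≤ c := by
  have h1 : Tendsto (fun T : ℕ => Real.exp (-(T : ℝ))) atTop (𝓝 0) :=
    Real.tendsto_exp_atBot.comp (tendsto_neg_atTop_atBot.comp tendsto_natCast_atTop_atTop)
  have h2 := h1.const_mul M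
  rw [mul_zero] at h2
  exact (h2.eventually_lt_const hc).mono fun T hT => hT.le

/-- The estimates `n1`, `n2`, `n3` of the window lemma and the final one. -/
theorem num {e Λ δ κ κ1 Cv Cg Cq δ0 : ℝ} (he : 0 < e) (hκ : 0 ≤ κ) (hκ1 : 0 ≤ κ1)
    (hCv : 0 ≤ Cv) (hCg : 0 ≤ Cg) (hCq : 0 ≤ Cq) {r C R : ℕ} (hr : Λ + e ≤ r * (e / 2))
    (hC : Λ ≤ δ * C) (hR : e / 8 + κ1 + κ + 1 ≤ e / 8 * R) (T : ℝ) (hT : 0 ≤ T)
    (h1 : Real.exp (-T) ≤ δ0) (h2 : 4 * Cg * Cq * Real.exp (-T) ≤ 1)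
    (h3 : 2 * Cg * (3 * Cv + C * R + 3 * R) * Real.exp (-T) ≤ 1) :
    Real.exp (κ * T) * Real.exp (-(e / 2) * (R * T)) ≤ Real.exp (-T) ∧
    Real.exp (κ * T) * Real.exp (-(e / 2) * (R * T)) ≤ δ0 ∧
    2 * Cg * Cq * (Real.exp (e / 8 * T) + 1) *
      (Real.exp (κ * T) * Real.exp (-(e / 2) * (R * T))) ≤ 1 ∧
    2 * Cg * (2 * Real.exp (e / 8 * (R * T) + e / 8 * T) * (Cv * Real.exp (-e * (R * T))) +
      Real.exp ((Λ + e / 8) * (R * T) + e / 8 * T) * (Real.exp (-Λ * (R * T)) *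
        (Cv * Real.exp (-e * (R * T))) + (C * R : ℕ) *
        (Real.exp (κ1 * T) * Real.exp (-e * (R * T)) ^ (r + 1))) +
      3 * (R * (Real.exp ((Λ + e / 8) * (R * T) + e / 8 * T) *
        (Real.exp (κ1 * T) * Real.exp (-(e / 2) * (R * T)) ^ (r + 1))))) ≤
      Real.exp (-(e / 2) * (R * T)) ∧
    Real.exp (-δ * ((C * R : ℕ) * T)) ≤ Real.exp (-Λ * (R * T)) := by
  have hRT : 0 ≤ (R : ℝ) * T := by positivity
  have hreT := mul_le_mul_of_nonneg_right hR hT
  have eT : 0 ≤ e / 8 * T := by positivity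
  have κT : 0 ≤ κ * T := by positivity
  have κ1T : 0 ≤ κ1 * T := by positivity
  have eRT : 0 ≤ e / 8 * (R * T) := by positivity
  have k1 : κ * T + -(e / 2) * (R * T) ≤ -T := by nlinarith
  have k2 : e / 8 * T + (κ * T + -(e / 2) * (R * T)) ≤ -T := by nlinarith
  have g1 : Real.exp (κ * T) * Real.exp (-(e / 2) * (R * T)) ≤ Real.exp (-T) := by
    rw [← Real.exp_add]
    exact Real.exp_le_exp.2 k1
  refine ⟨g1, g1.trans h1, ?_, ?_, ?_⟩
  · have g2 : (Real.exp (e / 8 * T) + 1) * (Real.exp (κ * T) * Real.exp (-(e / 2) * (R * T))) ≤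
        2 * Real.exp (-T) := by
      rw [add_mul, one_mul]
      have g3 : Real.exp (e / 8 * T) * (Real.exp (κ * T) * Real.exp (-(e / 2) * (R * T))) ≤
          Real.exp (-T) := by
        rw [← Real.exp_add, ← Real.exp_add]
        exact Real.exp_le_exp.2 k2
      linarith
    calc 2 * Cg * Cq * (Real.exp (e / 8 * T) + 1) *
        (Real.exp (κ * T) * Real.exp (-(e / 2) * (R * T))) =
        2 * Cg * Cq * ((Real.exp (e / 8 * T) + 1) *
        (Real.exp (κ * T) * Real.exp (-(e / 2) * (R * T)))) := by ring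
      _ ≤ 2 * Cg * Cq * (2 * Real.exp (-T)) := mul_le_mul_of_nonneg_left g2 (by positivity)
      _ = 4 * Cg * Cq * Real.exp (-T) := by ring
      _ ≤ 1 := h2
  · -- everything is at most `X = exp (e/8 R T + e/8 T + κ1 T - e R T)`
    have hrR := mul_le_mul_of_nonneg_right hr hRT
    have q1 : Real.exp (e / 8 * (R * T) + e / 8 * T) * Real.exp (-e * (R * T)) ≤
        Real.exp (-(e / 2) * (R * T)) * Real.exp (-T) := by
      rw [← Real.exp_add, ← Real.exp_add]
      refine Real.exp_le_exp.2 ?_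
      nlinarith
    have q2 : Real.exp ((Λ + e / 8) * (R * T) + e / 8 * T) * Real.exp (-Λ * (R * T)) *
        Real.exp (-e * (R * T)) ≤ Real.exp (-(e / 2) * (R * T)) * Real.exp (-T) := by
      rw [← Real.exp_add, ← Real.exp_add, ← Real.exp_add]
      refine Real.exp_le_exp.2 ?_
      nlinarith
    have q3 : Real.exp ((Λ + e / 8) * (R * T) + e / 8 * T) *
        (Real.exp (κ1 * T) * Real.exp (-e * (R * T)) ^ (r + 1)) ≤
        Real.exp (-(e / 2) * (R * T)) * Real.exp (-T) := by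
      rw [← Real.exp_nat_mul, ← Real.exp_add, ← Real.exp_add, ← Real.exp_add]
      refine Real.exp_le_exp.2 ?_
      push_cast
      have hr2 : (Λ + e) * (R * T) ≤ r * (e / 2) * (R * T) := hrR
      have hr0 : 0 ≤ (r : ℝ) * (e / 2) * (R * T) := by positivity
      nlinarith
    have q4 : Real.exp ((Λ + e / 8) * (R * T) + e / 8 * T) *
        (Real.exp (κ1 * T) * Real.exp (-(e / 2) * (R * T)) ^ (r + 1)) ≤
        Real.exp (-(e / 2) * (R * T)) * Real.exp (-T) := by
      rw [← Real.exp_nat_mul, ← Real.exp_add, ← Real.exp_add, ← Real.exp_add]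
      refine Real.exp_le_exp.2 ?_
      push_cast
      have hr2 : (Λ + e) * (R * T) ≤ r * (e / 2) * (R * T) := hrR
      nlinarith
    have hρ0 : 0 ≤ Real.exp (-(e / 2) * (R * T)) := (Real.exp_pos _).le
    generalize Real.exp (-(e / 2) * (R * T)) = ρ' at *
    generalize hX : ρ' * Real.exp (-T) = X at *
    generalize Real.exp ((Λ + e / 8) * (R * T) + e / 8 * T) = g' at *
    generalize Real.exp (e / 8 * (R * T) + e / 8 * T) = g at *
    generalize Real.exp (-e * (R * T)) = ρ at *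
    generalize Real.exp (-Λ * (R * T)) = β at *
    generalize Real.exp (κ1 * T) * ρ ^ (r + 1) = E at *
    generalize Real.exp (κ1 * T) * ρ' ^ (r + 1) = E1 at *
    have hCR : (0 : ℝ) ≤ (C * R : ℕ) := Nat.cast_nonneg _
    have hR0 : (0 : ℝ) ≤ R := Nat.cast_nonneg _
    have m1 := mul_le_mul_of_nonneg_left q1 hCv
    have m2 := mul_le_mul_of_nonneg_left q2 hCv
    have m3 := mul_le_mul_of_nonneg_left q3 hCR
    have m4 := mul_le_mul_of_nonneg_left q4 hR0
    have m5 : 2 * g * (Cv * ρ) + g' * (β * (Cv * ρ) + (C * R : ℕ) * E) + 3 * (R * (g' * E1)) ≤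
        (3 * Cv + C * R + 3 * R) * X := by
      push_cast at m3 ⊢
      linarith
    calc 2 * Cg * (2 * g * (Cv * ρ) + g' * (β * (Cv * ρ) + (C * R : ℕ) * E) +
        3 * (R * (g' * E1))) ≤ 2 * Cg * ((3 * Cv + C * R + 3 * R) * X) :=
          mul_le_mul_of_nonneg_left m5 (by positivity)
      _ = (2 * Cg * (3 * Cv + C * R + 3 * R) * Real.exp (-T)) * ρ' := by rw [← hX]; ring
      _ ≤ 1 * ρ' := mul_le_mul_of_nonneg_right h3 hρ0
      _ = ρ' := one_mul _
  · refine Real.exp_le_exp.2 ?_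
    push_cast
    have h := mul_le_mul_of_nonneg_right hC hRT
    nlinarith

end Pool.Agent.H93.SH
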