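import Mathlib
import Pool.Agent.H67.LX.Defs
import Pool.Agent.H23.DM.La1

/-!
Lipschitz and Taylor constants along the powers of `b` (helper93, MP_d9606f_gt).
-/

set_option linter.unusedSectionVars false

open MeasureTheory Filter Matrix
open scoped Topology
open Pool.Agent.H73.PZ
open Pool.Agent.H23.DM

namespace Pool.Agent.H93.SH

open Pool.Agent.H67.LX

section fibre

variable {Γ : Type} [Group Γ] {M : Type} [TopologicalSpace M] [CompactSpace M]
  [MeasurableSpace M] [MulAction Γ M]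

theorem dist0_nonneg {M κ : Type} [Fintype κ] (ψ : κ → M → ℝ) (m m' : M) : 0 ≤ dist0 ψ m m' :=
  vn_nonneg _

theorem dist0_bdd (V : Fib Γ M) : ∃ C : ℝ, 0 ≤ C ∧ ∀ m m', dist0 V.ψ m m' ≤ C := by
  have h : ∀ i : V.κ, ∃ C : ℝ, ∀ m : M, |V.ψ i m| ≤ C := by
    intro i
    obtain ⟨C, hC⟩ := isCompact_univ.exists_bound_of_continuousOn (V.ψ_cont i).continuousOn
    exact ⟨C, fun m => hC m (Set.mem_univ _)⟩
  choose C hC using h
  have hc : 0 ≤ ∑ i, (|C i| + |C i|) := Finset.sum_nonneg fun i _ => by positivity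
  refine ⟨Fintype.card V.κ * ∑ i, (|C i| + |C i|), by positivity, fun m m' => ?_⟩
  refine vn_le_of_entries hc fun i => ?_
  refine (abs_sub _ _).trans ?_
  refine (add_le_add ((hC i m').trans (le_abs_self _)) ((hC i m).trans (le_abs_self _))).trans ?_
  exact Finset.single_le_sum (f := fun i => |C i| + |C i|) (fun i _ => by positivity)
    (Finset.mem_univ i)

theorem J_bdd (V : Fib Γ M) (γ : Γ) : ∃ C : ℝ, 0 ≤ C ∧ ∀ m, fn (V.J γ m) ≤ C := by
  have h : ∀ i j : V.κ, ∃ C : ℝ, ∀ m : M, |V.J γ m i j| ≤ C := by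
    intro i j
    obtain ⟨C, hC⟩ := isCompact_univ.exists_bound_of_continuousOn (V.J_cont γ i j).continuousOn
    exact ⟨C, fun m => hC m (Set.mem_univ _)⟩
  choose C hC using h
  have hc : 0 ≤ ∑ i, ∑ j, |C i j| := Finset.sum_nonneg fun i _ => Finset.sum_nonneg fun j _ =>
    abs_nonneg _
  refine ⟨Fintype.card V.κ * ∑ i, ∑ j, |C i j|, by positivity, fun m => ?_⟩
  refine fn_le_of_entries hc fun i j => ?_
  refine (hC i j m).trans ((le_abs_self _).trans ?_)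
  refine (Finset.single_le_sum (f := fun j => |C i j|) (fun j _ => abs_nonneg _)
    (Finset.mem_univ j)).trans ?_
  exact Finset.single_le_sum (f := fun i => ∑ j, |C i j|)
    (fun i _ => Finset.sum_nonneg fun j _ => abs_nonneg _) (Finset.mem_univ i)

/-- Every element of `Γ` acts by a Lipschitz map. -/
theorem lip (V : Fib Γ M) (γ : Γ) : ∃ C : ℝ, 0 ≤ C ∧
    ∀ m m', dist0 V.ψ (γ • m) (γ • m') ≤ C * dist0 V.ψ m m' := by
  obtain ⟨B, hB0, hB⟩ := dist0_bdd V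
  obtain ⟨C, hC0, hC⟩ := J_bdd V γ
  obtain ⟨E, hE⟩ := V.J_err γ
  refine ⟨C + |E| * B, by positivity, fun m m' => ?_⟩
  have hd := dist0_nonneg V.ψ m m'
  have h1 := hE m m'
  have h2 : dist0 V.ψ (γ • m) (γ • m') ≤
      vn ((fun i => V.ψ i (γ • m') - V.ψ i (γ • m)) - V.J γ m *ᵥ fun i => V.ψ i m' - V.ψ i m) +
      vn (V.J γ m *ᵥ fun i => V.ψ i m' - V.ψ i m) := by
    have h3 := vn_add_le ((fun i => V.ψ i (γ • m') - V.ψ i (γ • m)) -
      V.J γ m *ᵥ fun i => V.ψ i m' - V.ψ i m) (V.J γ m *ᵥ fun i => V.ψ i m' - V.ψ i m)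
    rw [sub_add_cancel] at h3
    exact h3
  have h4 : vn (V.J γ m *ᵥ fun i => V.ψ i m' - V.ψ i m) ≤ C * dist0 V.ψ m m' :=
    (vn_mulVec_le _ _).trans (mul_le_mul_of_nonneg_right (hC m) hd)
  have h5 : E * dist0 V.ψ m m' ^ 2 ≤ |E| * B * dist0 V.ψ m m' := by
    rw [pow_two, ← mul_assoc]
    refine mul_le_mul_of_nonneg_right ?_ hd
    exact mul_le_mul (le_abs_self _) (hB m m') hd (abs_nonneg _)
  calc dist0 V.ψ (γ • m) (γ • m') ≤ _ := h2
    _ ≤ E * dist0 V.ψ m m' ^ 2 + C * dist0 V.ψ m m' := add_le_add h1 h4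
    _ ≤ (C + |E| * B) * dist0 V.ψ m m' := by linarith

end fibre

variable {p : ℕ} [Fact p.Prime] {n : ℕ} {Γ : Subgroup (SLn p n)} {F M : Type}
    [TopologicalSpace F] [CompactSpace F]
    [MeasurableSpace F] [MulAction (SLn p n) F]
    [TopologicalSpace M] [CompactSpace M]
    [MeasurableSpace M] [MulAction Γ M]
    [MulAction (SLn p n) (F × M)] [MulAction (AZ n) (F × M)]

theorem range_fin (S : Sus Γ F M) (g : SLn p n) : (Set.range (S.B.al g)).Finite :=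
  (S.B.al_lc g).range_finite

/-- common bounds over the values of the cocycle -/
theorem bound_al (S : Sus Γ F M) (g : SLn p n) (C : Γ → ℝ) : ∃ K : ℝ, 1 ≤ K ∧
    ∀ f, C (S.B.al g f) ≤ K := by
  have hfin := range_fin S g
  have h0 : 0 ≤ ∑ γ ∈ hfin.toFinset, |C γ| := Finset.sum_nonneg fun γ _ => abs_nonneg _
  refine ⟨1 + ∑ γ ∈ hfin.toFinset, |C γ|, by linarith, fun f => ?_⟩
  have h1 : |C (S.B.al g f)| ≤ ∑ γ ∈ hfin.toFinset, |C γ| :=
    Finset.single_le_sum (f := fun γ => |C γ|) (fun γ _ => abs_nonneg _)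
      (hfin.mem_toFinset.2 ⟨f, rfl⟩)
  have h2 := le_abs_self (C (S.B.al g f))
  linarith

theorem al_zero (S : Sus Γ F M) (b : AZ n) (f : F) : S.B.al (dgh p n (b ^ 0)) f = 1 := by
  rw [pow_zero, map_one]
  exact S.B.al_K 1 (one_mem _) f

theorem al_succ (S : Sus Γ F M) (b : AZ n) (t : ℕ) (f : F) : S.B.al (dgh p n (b ^ (t + 1))) f =
    S.B.al (dgh p n b) (dgh p n (b ^ t) • f) * S.B.al (dgh p n (b ^ t)) f := by
  rw [pow_succ', map_mul, S.B.al_mul]

theorem al_add (S : Sus Γ F M) (b : AZ n) (s t : ℕ) (f : F) : S.B.al (dgh p n (b ^ (s + t))) f =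
    S.B.al (dgh p n (b ^ s)) (dgh p n (b ^ t) • f) * S.B.al (dgh p n (b ^ t)) f := by
  rw [pow_add, map_mul, S.B.al_mul]

/-- The Lipschitz constants of the powers of `b`. -/
theorem lip_pow (S : Sus Γ F M) (b : AZ n) : ∃ K : ℝ, 1 ≤ K ∧ ∀ (t : ℕ) (f : F) (m m' : M),
    S.d (S.B.al (dgh p n (b ^ t)) f • m) (S.B.al (dgh p n (b ^ t)) f • m') ≤ K ^ t * S.d m m' := by
  choose C hC0 hC using lip S.V
  obtain ⟨K, hK1, hK⟩ := bound_al S (dgh p n b) C
  have hK0 : 0 ≤ K := by linarith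
  refine ⟨K, hK1, fun t => ?_⟩
  induction t with
  | zero =>
    intro f m m'
    rw [al_zero, one_smul, one_smul, pow_zero, one_mul]
  | succ t ih =>
    intro f m m'
    rw [al_succ, mul_smul, mul_smul]
    have h1 := hC (S.B.al (dgh p n b) (dgh p n (b ^ t) • f)) (S.B.al (dgh p n (b ^ t)) f • m)
      (S.B.al (dgh p n (b ^ t)) f • m')
    have h2 := hK (dgh p n (b ^ t) • f)
    have h3 := ih f m m'
    have h0 : 0 ≤ S.d (S.B.al (dgh p n (b ^ t)) f • m) (S.B.al (dgh p n (b ^ t)) f • m') :=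
      dist0_nonneg _ _ _
    calc S.d _ _ ≤ _ := h1
      _ ≤ K * S.d (S.B.al (dgh p n (b ^ t)) f • m) (S.B.al (dgh p n (b ^ t)) f • m') :=
        mul_le_mul_of_nonneg_right h2 h0
      _ ≤ K * (K ^ t * S.d m m') := mul_le_mul_of_nonneg_left h3 hK0
      _ = K ^ (t + 1) * S.d m m' := by ring

/-- Taylor expansion along the powers of `b`. -/
theorem tay_pow (S : Sus Γ F M) (b : AZ n) (r : ℕ) (hr : 1 ≤ r) : ∃ K : ℝ, 1 ≤ K ∧
    ∀ (t : ℕ) (f : F) (m m' : M),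
    vn ((S.V.jet r hr).V (S.B.al (dgh p n (b ^ t)) f • m) (S.B.al (dgh p n (b ^ t)) f • m') -
      S.D r hr (dgh p n (b ^ t)) (f, m) *ᵥ (S.V.jet r hr).V m m') ≤ K ^ t * S.d m m' ^ (r + 1) := by
  obtain ⟨K, hK1, hK⟩ := lip_pow S b
  choose C hC using (S.V.jet r hr).V_err
  choose B hB using (S.V.jet r hr).bdd
  obtain ⟨C0, hC01, hC0⟩ := bound_al S (dgh p n b) C
  obtain ⟨B0, hB01, hB0⟩ := bound_al S (dgh p n b) B
  have hKr : 1 ≤ K ^ (r + 1) := one_le_pow₀ hK1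
  refine ⟨K ^ (r + 1) + C0 + B0, by linarith, fun t => ?_⟩
  induction t with
  | zero =>
    intro f m m'
    have h1 : S.D r hr (dgh p n (b ^ 0)) (f, m) = 1 := by
      change (S.V.jet r hr).D (S.B.al (dgh p n (b ^ 0)) f) m = 1
      rw [al_zero, (S.V.jet r hr).one]
    rw [h1, al_zero, one_smul, one_smul, Matrix.one_mulVec, sub_self, pow_zero, one_mul]
    have h2 : vn (0 : (S.V.jet r hr).ι → ℝ) = 0 := vn_eq_zero.2 rfl
    rw [h2]
    exact pow_nonneg (dist0_nonneg _ _ _) _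
  | succ t ih =>
    intro f m m'
    have hd : 0 ≤ S.d m m' := dist0_nonneg _ _ _
    have e1 : S.D r hr (dgh p n (b ^ (t + 1))) (f, m) =
        (S.V.jet r hr).D (S.B.al (dgh p n b) (dgh p n (b ^ t) • f))
          (S.B.al (dgh p n (b ^ t)) f • m) * S.D r hr (dgh p n (b ^ t)) (f, m) := by
      change (S.V.jet r hr).D (S.B.al (dgh p n (b ^ (t + 1))) f) m = _
      rw [al_succ, (S.V.jet r hr).mul]
      rfl
    rw [e1, al_succ, mul_smul, mul_smul]
    have h1 := hC (S.B.al (dgh p n b) (dgh p n (b ^ t) • f)) (S.B.al (dgh p n (b ^ t)) f • m)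
      (S.B.al (dgh p n (b ^ t)) f • m')
    have h2 := ih f m m'
    have h3 := hC0 (dgh p n (b ^ t) • f)
    have h4 := (hB (S.B.al (dgh p n b) (dgh p n (b ^ t) • f))
      (S.B.al (dgh p n (b ^ t)) f • m)).trans (hB0 (dgh p n (b ^ t) • f))
    have h5 := hK t f m m'
    generalize S.B.al (dgh p n b) (dgh p n (b ^ t) • f) = g1 at *
    generalize S.B.al (dgh p n (b ^ t)) f • m = m1 at *
    generalize S.B.al (dgh p n (b ^ t)) f • m' = m2 at *
    generalize S.D r hr (dgh p n (b ^ t)) (f, m) = A at *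
    have e2 : (S.V.jet r hr).V (g1 • m1) (g1 • m2) -
        ((S.V.jet r hr).D g1 m1 * A) *ᵥ (S.V.jet r hr).V m m' =
        ((S.V.jet r hr).V (g1 • m1) (g1 • m2) - (S.V.jet r hr).D g1 m1 *ᵥ (S.V.jet r hr).V m1 m2) +
        (S.V.jet r hr).D g1 m1 *ᵥ ((S.V.jet r hr).V m1 m2 - A *ᵥ (S.V.jet r hr).V m m') := by
      rw [Matrix.mulVec_sub, Matrix.mulVec_mulVec]
      abel
    rw [e2]
    refine (vn_add_le _ _).trans ?_
    have h0 : 0 ≤ S.d m1 m2 := dist0_nonneg _ _ _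
    have h6 : C g1 * dist0 S.V.ψ m1 m2 ^ (r + 1) ≤
        C0 * ((K ^ (r + 1) + C0 + B0) ^ t * S.d m m' ^ (r + 1)) := by
      refine mul_le_mul h3 ?_ (pow_nonneg h0 _) (by linarith)
      calc dist0 S.V.ψ m1 m2 ^ (r + 1) ≤ (K ^ t * S.d m m') ^ (r + 1) :=
            pow_le_pow_left₀ h0 h5 _
        _ = (K ^ (r + 1)) ^ t * S.d m m' ^ (r + 1) := by
            rw [mul_pow, ← pow_mul, ← pow_mul, mul_comm t]
        _ ≤ _ := by
            refine mul_le_mul_of_nonneg_right ?_ (pow_nonneg hd _)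
            exact pow_le_pow_left₀ (by linarith) (by linarith) _
    have h7 : vn ((S.V.jet r hr).D g1 m1 *ᵥ ((S.V.jet r hr).V m1 m2 -
        A *ᵥ (S.V.jet r hr).V m m')) ≤ B0 * ((K ^ (r + 1) + C0 + B0) ^ t * S.d m m' ^ (r + 1)) :=
      (vn_mulVec_le _ _).trans (mul_le_mul h4 h2 (vn_nonneg _) (by linarith))
    refine (add_le_add (h1.trans h6) h7).trans ?_
    have h8 : 0 ≤ (K ^ (r + 1) + C0 + B0) ^ t * S.d m m' ^ (r + 1) := by positivity
    calc C0 * ((K ^ (r + 1) + C0 + B0) ^ t * S.d m m' ^ (r + 1)) +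
        B0 * ((K ^ (r + 1) + C0 + B0) ^ t * S.d m m' ^ (r + 1)) =
        (C0 + B0) * ((K ^ (r + 1) + C0 + B0) ^ t * S.d m m' ^ (r + 1)) := by ring
      _ ≤ (K ^ (r + 1) + C0 + B0) * ((K ^ (r + 1) + C0 + B0) ^ t * S.d m m' ^ (r + 1)) :=
        mul_le_mul_of_nonneg_right (by linarith) h8
      _ = _ := by rw [pow_succ]; ring

/-- The growth of the first order part is at most `lamb ^ t`, with `lamb` independent of `r`. -/
theorem P_pow (S : Sus Γ F M) (b : AZ n) : ∃ lamb : ℝ, 1 ≤ lamb ∧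
    ∀ (r : ℕ) (hr : 1 ≤ r) (t : ℕ) (x : F × M),
    fn (S.D r hr (dgh p n (b ^ t)) x * (S.V.jet r hr).P) ≤ fn (S.V.jet r hr).P * lamb ^ t := by
  obtain ⟨L, hL1, hL⟩ := bound_al S (dgh p n b) S.V.lam
  refine ⟨L, hL1, fun r hr t => ?_⟩
  induction t with
  | zero =>
    intro x
    have h1 : S.D r hr (dgh p n (b ^ 0)) x = 1 := by
      change (S.V.jet r hr).D (S.B.al (dgh p n (b ^ 0)) x.1) x.2 = 1
      rw [al_zero, (S.V.jet r hr).one]
    rw [h1, one_mul, pow_zero, mul_one]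
  | succ t ih =>
    intro x
    have e1 : S.D r hr (dgh p n (b ^ (t + 1))) x =
        (S.V.jet r hr).D (S.B.al (dgh p n b) (dgh p n (b ^ t) • x.1))
          (S.B.al (dgh p n (b ^ t)) x.1 • x.2) * S.D r hr (dgh p n (b ^ t)) x := by
      change (S.V.jet r hr).D (S.B.al (dgh p n (b ^ (t + 1))) x.1) x.2 = _
      rw [al_succ, (S.V.jet r hr).mul]
      rfl
    have e2 : S.D r hr (dgh p n (b ^ (t + 1))) x * (S.V.jet r hr).P =
        ((S.V.jet r hr).D (S.B.al (dgh p n b) (dgh p n (b ^ t) • x.1))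
          (S.B.al (dgh p n (b ^ t)) x.1 • x.2) * (S.V.jet r hr).P) *
          (S.D r hr (dgh p n (b ^ t)) x * (S.V.jet r hr).P) := by
      have h2 : (S.V.jet r hr).P * (S.D r hr (dgh p n (b ^ t)) x * (S.V.jet r hr).P) =
          S.D r hr (dgh p n (b ^ t)) x * (S.V.jet r hr).P := (S.V.jet r hr).P_inv _ _
      rw [e1, Matrix.mul_assoc, Matrix.mul_assoc, h2]
    rw [e2]
    refine (fn_mul_le _ _).trans ?_
    have h3 := ((S.V.jet r hr).lam_le (S.B.al (dgh p n b) (dgh p n (b ^ t) • x.1))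
      (S.B.al (dgh p n (b ^ t)) x.1 • x.2)).trans (hL (dgh p n (b ^ t) • x.1))
    refine (mul_le_mul h3 (ih x) (fn_nonneg _) (by linarith)).trans (le_of_eq ?_)
    ring

end Pool.Agent.H93.SH
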