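import Mathlib
import Pool.Agent.H67.LX.SecInv
import Pool.Agent.H93.SH.Lip

/-!
Identities along orbits for (I2) (helper93, MP_d9606f_gt).
-/

set_option linter.unusedSectionVars false

open MeasureTheory Filter Matrix
open scoped Topology
open Pool.Agent.H73.PZ
open Pool.Agent.H23.DM

namespace Pool.Agent.H93.SH

open Pool.Agent.H67.LX

variable {p : ℕ} [Fact p.Prime] {n : ℕ} {Γ : Subgroup (SLn p n)} {F M : Type}
    [TopologicalSpace F] [CompactSpace F] [T2Space F] [SecondCountableTopology F]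
    [MeasurableSpace F] [BorelSpace F] [MulAction (SLn p n) F]
    [TopologicalSpace M] [CompactSpace M] [T2Space M] [SecondCountableTopology M]
    [MeasurableSpace M] [BorelSpace M] [MulAction Γ M]
    [MulAction (SLn p n) (F × M)] [MulAction (AZ n) (F × M)]

/-- The fibre point of `m` over `y.1` at time `t`. -/
noncomputable def fp (S : Sus Γ F M) (b : AZ n) (f : F) (t : ℕ) (m : M) : M := S.B.al (dgh p n (b ^ t)) f • m

theorem pow_smul_eq (S : Sus Γ F M) (b : AZ n) (t : ℕ) (y : F × M) :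
    b ^ t • y = (dgh p n (b ^ t) • y.1, fp S b y.1 t y.2) := by
  rw [S.smul_A, S.smul_def]
  rfl

theorem fp_zero (S : Sus Γ F M) (b : AZ n) (f : F) (m : M) : fp S b f 0 m = m := by
  unfold fp
  rw [al_zero, one_smul]

theorem fp_add (S : Sus Γ F M) (b : AZ n) (f : F) (s t : ℕ) (m : M) :
    fp S b f (s + t) m = fp S b (dgh p n (b ^ t) • f) s (fp S b f t m) := by
  unfold fp
  rw [al_add, mul_smul]

/-- Lipschitz estimate between two times. -/
theorem lip_orb (S : Sus Γ F M) {b : AZ n} {K : ℝ}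
    (hK : ∀ (t : ℕ) (f : F) (m m' : M), S.d (S.B.al (dgh p n (b ^ t)) f • m)
      (S.B.al (dgh p n (b ^ t)) f • m') ≤ K ^ t * S.d m m') (f : F) (s t : ℕ) (m m' : M) :
    S.d (fp S b f (s + t) m) (fp S b f (s + t) m') ≤ K ^ s * S.d (fp S b f t m) (fp S b f t m') := by
  rw [fp_add, fp_add]
  exact hK s _ _ _

/-- Taylor estimate between two times. -/
theorem tay_orb (S : Sus Γ F M) {b : AZ n} {r : ℕ} {hr : 1 ≤ r} {K : ℝ}
    (hK : ∀ (t : ℕ) (f : F) (m m' : M),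
      vn ((S.V.jet r hr).V (S.B.al (dgh p n (b ^ t)) f • m) (S.B.al (dgh p n (b ^ t)) f • m') -
        S.D r hr (dgh p n (b ^ t)) (f, m) *ᵥ (S.V.jet r hr).V m m') ≤ K ^ t * S.d m m' ^ (r + 1))
    (y : F × M) (s t : ℕ) (m' : M) :
    vn ((S.V.jet r hr).V (fp S b y.1 (s + t) y.2) (fp S b y.1 (s + t) m') -
      S.D r hr (dgh p n (b ^ s)) (b ^ t • y) *ᵥ
        (S.V.jet r hr).V (fp S b y.1 t y.2) (fp S b y.1 t m')) ≤
      K ^ s * S.d (fp S b y.1 t y.2) (fp S b y.1 t m') ^ (r + 1) := by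
  rw [fp_add, fp_add, pow_smul_eq S]
  exact hK s _ _ _

/-- Backward matrices. -/
theorem back_step {μ : Measure (F × M)} (S : Sus Γ F M) (hE : Sys (AZ n) (F × M) μ) (r : ℕ)
    (hr : 1 ≤ r) {s : F × M → Matrix (S.V.jet r hr).ι (S.V.jet r hr).ι ℝ} (b : AZ n) (T j : ℕ)
    (y : F × M)
    (h : s (b ^ T • b ^ (j * T) • y) * (jc S hE r hr).D (b ^ T) (b ^ (j * T) • y) =
      (jc S hE r hr).D (b ^ T) (b ^ (j * T) • y) * s (b ^ (j * T) • y)) :
    (jc S hE r hr).D (b⁻¹ ^ ((j + 1) * T)) (b ^ ((j + 1) * T) • y) * s (b ^ ((j + 1) * T) • y) *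
      (jc S hE r hr).D (b ^ T) (b ^ (j * T) • y) =
    (jc S hE r hr).D (b⁻¹ ^ (j * T)) (b ^ (j * T) • y) * s (b ^ (j * T) • y) := by
  have e1 : b ^ ((j + 1) * T) • y = b ^ T • b ^ (j * T) • y := by
    rw [smul_smul, ← pow_add]
    congr 2
    ring
  have e2 : b⁻¹ ^ (j * T) = b⁻¹ ^ ((j + 1) * T) * b ^ T := by
    rw [inv_pow, inv_pow, add_mul, one_mul, pow_add, mul_inv, inv_mul_cancel_right]
  have e3 : (jc S hE r hr).D (b⁻¹ ^ (j * T)) (b ^ (j * T) • y) =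
      (jc S hE r hr).D (b⁻¹ ^ ((j + 1) * T)) (b ^ T • b ^ (j * T) • y) *
        (jc S hE r hr).D (b ^ T) (b ^ (j * T) • y) := by
    rw [e2, jc_D, jc_D, jc_D, map_mul, S.D_mul, S.smul_A (b ^ T)]
  rw [e1, e3, Matrix.mul_assoc, h, Matrix.mul_assoc]

/-- Forward matrices. -/
theorem forw_step {μ : Measure (F × M)} (S : Sus Γ F M) (hE : Sys (AZ n) (F × M) μ) (r : ℕ)
    (hr : 1 ≤ r) {s : F × M → Matrix (S.V.jet r hr).ι (S.V.jet r hr).ι ℝ} (b : AZ n) (T j N : ℕ)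
    (hj : j < N) (y : F × M)
    (h : s (b ^ T • b ^ (j * T) • y) * (jc S hE r hr).D (b ^ T) (b ^ (j * T) • y) =
      (jc S hE r hr).D (b ^ T) (b ^ (j * T) • y) * s (b ^ (j * T) • y)) :
    (jc S hE r hr).D (b ^ ((N - (j + 1)) * T)) (b ^ ((j + 1) * T) • y) * s (b ^ ((j + 1) * T) • y) *
      (jc S hE r hr).D (b ^ T) (b ^ (j * T) • y) =
    (jc S hE r hr).D (b ^ ((N - j) * T)) (b ^ (j * T) • y) * s (b ^ (j * T) • y) := by
  have e1 : b ^ ((j + 1) * T) • y = b ^ T • b ^ (j * T) • y := by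
    rw [smul_smul, ← pow_add]
    congr 2
    ring
  have e2 : b ^ ((N - j) * T) = b ^ ((N - (j + 1)) * T) * b ^ T := by
    rw [← pow_add]
    congr 1
    have : N - j = N - (j + 1) + 1 := by omega
    rw [this]
    ring
  have e3 : (jc S hE r hr).D (b ^ ((N - j) * T)) (b ^ (j * T) • y) =
      (jc S hE r hr).D (b ^ ((N - (j + 1)) * T)) (b ^ T • b ^ (j * T) • y) *
        (jc S hE r hr).D (b ^ T) (b ^ (j * T) • y) := by
    rw [e2, jc_D, jc_D, jc_D, map_mul, S.D_mul, S.smul_A (b ^ T)]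
  rw [e1, e3, Matrix.mul_assoc, h, Matrix.mul_assoc]

end Pool.Agent.H93.SH
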