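import Mathlib
import Pool.Agent.H23.DM.Sp5

/-!
Events of small probability for (I2) (helper93, MP_d9606f_gt).
-/

set_option linter.unusedSectionVars false

open MeasureTheory Filter Matrix
open scoped Topology
open Pool.Agent.H23.DM

namespace Pool.Agent.H93.SH

section wp

variable {X : Type} [MeasurableSpace X] {μ : Measure X}

theorem WP_sub {E : ℕ → Set X} (h : WP μ E) {N : ℕ} (hN : 1 ≤ N) :
    WP μ fun T => E (N * T) := by
  have h1 : Tendsto (fun T : ℕ => N * T) atTop atTop :=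
    tendsto_id.const_mul_atTop' (by omega)
  exact h.comp h1

theorem WP_empty : WP μ fun _ => (∅ : Set X) := by
  unfold WP
  simp only [measure_empty]
  exact tendsto_const_nhds

theorem WP_biUnion {α : Type} (s : Finset α) {E : α → ℕ → Set X} (h : ∀ a ∈ s, WP μ (E a)) :
    WP μ fun T => ⋃ a ∈ s, E a T := by
  classical
  induction s using Finset.induction_on with
  | empty =>
    refine WP_empty.mono (Eventually.of_forall fun T => ?_)
    simp
  | insert a s ha ih =>
    have h1 := h a (Finset.mem_insert_self a s)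
    have h2 := ih fun b hb => h b (Finset.mem_insert_of_mem hb)
    refine WP.union h1 h2 (Eventually.of_forall fun T => ?_)
    rw [Finset.set_biUnion_insert, Set.sdiff_self, measure_empty]

end wp

variable {A X ι : Type} [CommGroup A] [MulAction A X] [Fintype ι] [DecidableEq ι]
  [MeasurableSpace X] {μ : Measure X}

/-- The rate at the times `N T` at shifted points, `N ≥ 1`. -/
theorem ev_pos {c : Coc A X ι μ} {s : X → Matrix ι ι ℝ} (hs : MM s) {a : A} {r : ℝ}
    (h : c.Rt s a r) {N : ℕ} (hN : 1 ≤ N) {f : ℕ → X → X}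
    (hf : ∀ T, MeasurePreserving (f T) μ μ) :
    WP μ fun T => {x | Real.exp (r * (N * T : ℕ)) < fn (c.D (a ^ (N * T)) (f T x) * s (f T x))} := by
  have h1 := WP_sub h hN
  refine WP.mono h1 (Eventually.of_forall fun T => ?_)
  have hm := Coc.Rt_meas (c := c) hs a r (N * T)
  exact ((hf T).measure_preimage hm.nullMeasurableSet).le

/-- The rate at the times `N T` at shifted points, `N ≥ 0`. -/
theorem ev [IsFiniteMeasure μ] {c : Coc A X ι μ} {s : X → Matrix ι ι ℝ} (hs : MM s) {a : A}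
    {r : ℝ} (h : c.Rt s a r) (N : ℕ) {f : ℕ → X → X} (hf : ∀ T, MeasurePreserving (f T) μ μ)
    {ε : ℝ} (hε : 0 < ε) :
    WP μ fun T => {x | Real.exp ((r * N + ε) * T) <
      fn (c.D (a ^ (N * T)) (f T x) * s (f T x))} := by
  by_cases hN : N = 0
  · subst hN
    have h1 := Coc.WP_fn_shift (μ := μ) ((c.meas 1).mul hs) hε hf
    refine WP.mono h1 (Eventually.of_forall fun T => ?_)
    refine measure_mono fun x hx => ?_
    have hx' : Real.exp ((r * (0 : ℕ) + ε) * T) <
      fn (c.D (a ^ (0 * T)) (f T x) * s (f T x)) := hx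
    rw [Nat.cast_zero, mul_zero, zero_add, zero_mul, pow_zero] at hx'
    exact hx'
  · refine WP.mono (ev_pos hs h (Nat.one_le_iff_ne_zero.2 hN) hf) (Eventually.of_forall fun T => ?_)
    refine measure_mono fun x hx => ?_
    have hx' : Real.exp ((r * N + ε) * T) < fn (c.D (a ^ (N * T)) (f T x) * s (f T x)) := hx
    refine lt_of_le_of_lt (Real.exp_le_exp.2 ?_) hx'
    have hT : (0 : ℝ) ≤ T := Nat.cast_nonneg T
    push_cast
    nlinarith [mul_nonneg hε.le hT]

/-- A summand of large growth does not see a subspace of small growth. -/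
theorem low (hE : Sys A X μ) (c : Coc A X ι μ) {s : X → Matrix ι ι ℝ} (hs : MM s)
    (heq : ∀ a, ∀ᵐ x ∂μ, s (a • x) * c.D a x = c.D a x * s x)
    (hone : ∀ᵐ x ∂μ, c.D 1 x * s x = s x) {b : A} {Λ δ : ℝ} (hδ : 0 < δ)
    (h : c.Rt s b⁻¹ (-(Λ + δ))) {P : Matrix ι ι ℝ} {C : ℝ}
    (hP : ∀ t : ℕ, ∀ᵐ x ∂μ, fn (c.D (b ^ t) x * P) ≤ C * Real.exp (Λ * t)) :
    ∀ᵐ x ∂μ, s x * P = 0 := by
  have : IsProbabilityMeasure μ := hE.prob
  have hpow : ∀ t : ℕ, MeasurePreserving (fun x : X => b ^ t • x) μ μ := fun t => hE.mp (b ^ t)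
  have w1 := h.shift hs hpow
  have hC : ∀ᶠ t : ℕ in atTop, C ≤ Real.exp (δ / 2 * t) := by
    have h1 : Tendsto (fun t : ℕ => Real.exp (δ / 2 * (t : ℝ))) atTop atTop :=
      Real.tendsto_exp_atTop.comp (tendsto_natCast_atTop_atTop.const_mul_atTop (by linarith))
    exact h1.eventually_ge_atTop C
  have w : WP μ fun t : ℕ => {x | Real.exp (-(δ / 2) * t) < fn (s x * P)} := by
    refine WP.mono w1 ?_
    filter_upwards [hC] with t ht
    have hinv : ∀ᵐ x ∂μ, c.D (b ^ t)⁻¹ (b ^ t • x) * c.D (b ^ t) x = c.D 1 x :=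
      Coc.D_inv_mul hE c (b ^ t)
    refine measure_mono_ae ?_
    filter_upwards [hinv, hone, heq (b ^ t), hP t] with x h1 h2 h3 h4 hx
    have hx' : Real.exp (-(δ / 2) * t) < fn (s x * P) := hx
    change Real.exp (-(Λ + δ) * t) < fn (c.D (b⁻¹ ^ t) (b ^ t • x) * s (b ^ t • x))
    by_contra hcon
    push Not at hcon
    have e : s x * P = c.D (b⁻¹ ^ t) (b ^ t • x) * s (b ^ t • x) * (c.D (b ^ t) x * P) := by
      rw [inv_pow]
      calc s x * P = c.D 1 x * s x * P := by rw [h2]
        _ = c.D (b ^ t)⁻¹ (b ^ t • x) * (c.D (b ^ t) x * s x) * P := by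
            rw [← h1]; simp only [Matrix.mul_assoc]
        _ = c.D (b ^ t)⁻¹ (b ^ t • x) * (s (b ^ t • x) * c.D (b ^ t) x) * P := by rw [h3]
        _ = _ := by simp only [Matrix.mul_assoc]
    have h5 : fn (s x * P) ≤ Real.exp (-(Λ + δ) * t) * (Real.exp (δ / 2 * t) * Real.exp (Λ * t)) := by
      rw [e]
      refine (fn_mul_le _ _).trans ?_
      refine mul_le_mul hcon (h4.trans ?_) (fn_nonneg _) (Real.exp_pos _).le
      exact mul_le_mul_of_nonneg_right ht (Real.exp_pos _).le
    rw [← Real.exp_add, ← Real.exp_add] at h5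
    have e2 : -(Λ + δ) * (t : ℝ) + (δ / 2 * t + Λ * t) = -(δ / 2) * t := by ring
    rw [e2] at h5
    linarith
  have h0 := Coc.ae_zero_of_WP (μ := μ) (f := fun x => fn (s x * P)) (fun x => fn_nonneg _)
    (by linarith : 0 < δ / 2) w
  filter_upwards [h0] with x hx
  exact fn_eq_zero.1 hx

end Pool.Agent.H93.SH
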