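import Mathlib
import Pool.Agent.H67.LX.SecInv
import Pool.Agent.H93.SH.Det
import Pool.Agent.H93.SH.Num
import Pool.Agent.H93.SH.Prob
import Pool.Agent.H93.SH.Orb

/-!
The deterministic part of (I2) over the suspension (helper93, MP_d9606f_gt).
-/

set_option linter.unusedSectionVars false

open MeasureTheory Filter Matrix
open scoped Topology
open Pool.Agent.H73.PZ
open Pool.Agent.H23.DM

namespace Pool.Agent.H93.SH

open Pool.Agent.H67.LX

variable {p : ℕ} [Fact p.Prime] {n : ℕ} {Γ : Subgroup (SLn p n)} {F M : Type}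
    [TopologicalSpace F] [CompactSpace F] [T2Space F] [SecondCountableTopology F]
    [MeasurableSpace F] [BorelSpace F] [MulAction (SLn p n) F]
    [TopologicalSpace M] [CompactSpace M] [T2Space M] [SecondCountableTopology M]
    [MeasurableSpace M] [BorelSpace M] [MulAction Γ M]
    [MulAction (SLn p n) (F × M)] [MulAction (AZ n) (F × M)]

/-- The deterministic part: a point outside the bad events. -/
theorem shift_det (S : Sus Γ F M) {μ : Measure (F × M)} (hE : Sys (AZ n) (F × M) μ)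
    {i j : Fin n} (hij : i ≠ j) (b : AZ n) (x : ℚ_[p]) (hx : EE hij x ∈ KM p n 2)
    (r : ℕ) (hr : 1 ≤ r)
    {s1 s2 s3 s4 : F × M → Matrix (S.V.jet r hr).ι (S.V.jet r hr).ι ℝ}
    {e η Λ δ κ κ1 Cv Cg Cq δ0 : ℝ} (he : 0 < e) (hκ : 0 ≤ κ) (hκ1 : 0 ≤ κ1) (hCv : 0 ≤ Cv)
    (hCg : 0 ≤ Cg) (hCq : 0 ≤ Cq) (hδ : 0 < δ) (hΛ : 0 ≤ Λ)
    (hlip : ∀ (t : ℕ) (f : F) (m m' : M), S.d (S.B.al (dgh p n (b ^ t)) f • m)
      (S.B.al (dgh p n (b ^ t)) f • m') ≤ Real.exp κ ^ t * S.d m m')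
    (htay : ∀ (t : ℕ) (f : F) (m m' : M),
      vn ((S.V.jet r hr).V (S.B.al (dgh p n (b ^ t)) f • m) (S.B.al (dgh p n (b ^ t)) f • m') -
        S.D r hr (dgh p n (b ^ t)) (f, m) *ᵥ (S.V.jet r hr).V m m') ≤
        Real.exp κ1 ^ t * S.d m m' ^ (r + 1))
    (hVle : ∀ m m', vn ((S.V.jet r hr).V m m') ≤ Cv * S.d m m')
    (hVq : ∀ m m', vn ((S.V.jet r hr).V m m' - (S.V.jet r hr).P *ᵥ (S.V.jet r hr).V m m') ≤
      Cq * S.d m m' ^ 2)
    (hVg : ∀ m m', S.d m m' ≤ δ0 → S.d m m' ≤ Cg * vn ((S.V.jet r hr).P *ᵥ (S.V.jet r hr).V m m'))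
    {C R : ℕ} (hC1 : 1 ≤ C) (hR1 : 1 ≤ R) (hrr : Λ + e ≤ r * (e / 2)) (hC : Λ ≤ δ * C)
    (hR : e / 8 + κ1 + κ + 1 ≤ e / 8 * R) (T : ℕ) (hT1 : 1 ≤ T)
    (h1 : Real.exp (-(T : ℝ)) ≤ δ0) (h2 : 4 * Cg * Cq * Real.exp (-(T : ℝ)) ≤ 1)
    (h3 : 2 * Cg * (3 * Cv + C * R + 3 * R) * Real.exp (-(T : ℝ)) ≤ 1)
    (h4 : Real.exp (-(T : ℝ)) ≤ η) (y : F × M) (m' : M)
    (hw : ∀ N : ℤ, |N| ≤ C * R →
      S.d (S.B.al (dgh p n (b ^ (N * T))) y.1 • y.2) (S.B.al (dgh p n (b ^ (N * T))) y.1 • m') ≤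
        Real.exp (-(e * (R * T))))
    -- identities
    (hs3y : ∀ t : ℕ, s3 (b ^ T • b ^ t • y) * (jc S hE r hr).D (b ^ T) (b ^ t • y) =
      (jc S hE r hr).D (b ^ T) (b ^ t • y) * s3 (b ^ t • y))
    (hss : ∀ t : ℕ, ∀ s, (s = s1 ∨ s = s2 ∨ s = s3) →
      s (b ^ T • b ^ t • EE hij x • y) * (jc S hE r hr).D (b ^ T) (b ^ t • EE hij x • y) =
      (jc S hE r hr).D (b ^ T) (b ^ t • EE hij x • y) * s (b ^ t • EE hij x • y))
    (hsum : ∀ t : ℕ, s1 (b ^ t • EE hij x • y) + s2 (b ^ t • EE hij x • y) +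
      s3 (b ^ t • EE hij x • y) + s4 (b ^ t • EE hij x • y) = 1)
    (hlow : ∀ t : ℕ, s4 (b ^ t • EE hij x • y) * (S.V.jet r hr).P = 0)
    (hsec : s3 (EE hij x • y) = s3 y) (hidem : s3 y * s3 y = s3 y)
    -- events
    (ev1 : ∀ N : ℕ, 1 ≤ N → N ≤ C * R → fn ((jc S hE r hr).D (b⁻¹ ^ (N * T)) (b ^ (N * T) • y) *
      s3 (b ^ (N * T) • y)) ≤ Real.exp (-δ * (N * T : ℕ)))
    (ev2 : ∀ N ≤ R, ∀ k ≤ R, fn ((jc S hE r hr).D (b ^ (N * T)) (b ^ (k * T) • EE hij x • y) *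
      s1 (b ^ (k * T) • EE hij x • y)) ≤ Real.exp ((-δ * N + e / 8) * T))
    (ev3 : ∀ N ≤ R, ∀ k ≤ R, fn ((jc S hE r hr).D (b ^ (N * T)) (b ^ (k * T) • EE hij x • y) *
      s2 (b ^ (k * T) • EE hij x • y)) ≤ Real.exp ((e / 8 * N + e / 8) * T))
    (ev4 : ∀ N ≤ R, ∀ k ≤ R, fn ((jc S hE r hr).D (b ^ (N * T)) (b ^ (k * T) • EE hij x • y) *
      s3 (b ^ (k * T) • EE hij x • y)) ≤ Real.exp (((Λ + e / 8) * N + e / 8) * T))
    (ev5 : ∀ k ≤ R, fn (s4 (b ^ (k * T) • EE hij x • y)) ≤ Real.exp (e / 8 * T)) :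
    ∀ t : ℕ, t ≤ R * T → S.d (S.B.al (dgh p n (b ^ t)) (EE hij x • y.1) • y.2)
      (S.B.al (dgh p n (b ^ t)) (EE hij x • y.1) • m') ≤ η := by
  have hT0 : (0 : ℝ) ≤ T := Nat.cast_nonneg T
  obtain ⟨n1a, n1, n2, n3, n4⟩ := num (r := r) (C := C) (R := R) he hκ hκ1 hCv hCg hCq hrr hC hR
    (T : ℝ) hT0 h1 h2 h3
  have hKT : Real.exp κ ^ T = Real.exp (κ * T) := by
    rw [← Real.exp_nat_mul, mul_comm]
  have hKT1 : Real.exp κ1 ^ T = Real.exp (κ1 * T) := by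
    rw [← Real.exp_nat_mul, mul_comm]
  have hye : EE hij x • y = (EE hij x • y.1, y.2) := by
    rw [S.smul_def, S.B.al_K _ hx, one_smul]
  have hw' : ∀ N : ℕ, N ≤ C * R → S.d (fp S b y.1 (N * T) y.2) (fp S b y.1 (N * T) m') ≤
      Real.exp (-e * (R * T)) := by
    intro N hN
    have g1 := hw (N : ℤ) (by rw [abs_of_nonneg (by positivity)]; exact_mod_cast hN)
    have e1 : b ^ ((N : ℤ) * (T : ℤ)) = b ^ (N * T) := by
      rw [← zpow_natCast]
      congr 1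
    rw [e1] at g1
    rw [neg_mul]
    exact g1
  have hstep : ∀ f : F, ∀ k : ℕ, S.d (fp S b f ((k + 1) * T) y.2) (fp S b f ((k + 1) * T) m') ≤
      Real.exp (κ * T) * S.d (fp S b f (k * T) y.2) (fp S b f (k * T) m') := by
    intro f k
    have g := lip_orb S hlip f T (k * T) y.2 m'
    rw [hKT] at g
    have e1 : T + k * T = (k + 1) * T := by ring
    rw [e1] at g
    exact g
  have key := window (L := C * R) (R := R)
    (A0 := fun k => (jc S hE r hr).D (b ^ T) (b ^ (k * T) • y))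
    (B := fun k => (jc S hE r hr).D (b⁻¹ ^ (k * T)) (b ^ (k * T) • y) * s3 (b ^ (k * T) • y))
    (A1 := fun k => (jc S hE r hr).D (b ^ T) (b ^ (k * T) • EE hij x • y))
    (s := fun k => 1 - s4 (b ^ (k * T) • EE hij x • y))
    (s4 := fun k => s4 (b ^ (k * T) • EE hij x • y))
    (G := fun q k N => (jc S hE r hr).D (b ^ ((N - k) * T)) (b ^ (k * T) • EE hij x • y) *
      (![s1, s2, s3] q) (b ^ (k * T) • EE hij x • y))
    (P := (S.V.jet r hr).P)
    (V0 := fun k => (S.V.jet r hr).V (fp S b y.1 (k * T) y.2) (fp S b y.1 (k * T) m'))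
    (V1 := fun k => (S.V.jet r hr).V (fp S b (EE hij x • y.1) (k * T) y.2)
      (fp S b (EE hij x • y.1) (k * T) m'))
    (d0 := fun k => S.d (fp S b y.1 (k * T) y.2) (fp S b y.1 (k * T) m'))
    (d1 := fun k => S.d (fp S b (EE hij x • y.1) (k * T) y.2) (fp S b (EE hij x • y.1) (k * T) m'))
    (ρ := Real.exp (-e * (R * T))) (ρ' := Real.exp (-(e / 2) * (R * T)))
    (β := Real.exp (-Λ * (R * T))) (g := Real.exp (e / 8 * (R * T) + e / 8 * T))
    (g' := Real.exp ((Λ + e / 8) * (R * T) + e / 8 * T)) (g4 := Real.exp (e / 8 * T))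
    (E := Real.exp (κ1 * T) * Real.exp (-e * (R * T)) ^ (r + 1))
    (E1 := Real.exp (κ1 * T) * Real.exp (-(e / 2) * (R * T)) ^ (r + 1))
    (Cv := Cv) (Cq := Cq) (Cg := Cg) (δ0 := δ0) (Kt := Real.exp (κ * T))
    hw' (fun k _ => hVle _ _) (fun k _ => back_step S hE r hr b T k y (hs3y (k * T)))
    ?_ ?_ ?_ ?_ ?_ ?_ ?_ (fun N _ => sub_add_cancel _ _) (fun N _ => hlow (N * T)) ?_ ?_
    (fun N hN => ev5 N hN) (fun k _ => dist0_nonneg _ _ _) ?_ (fun k _ => hstep _ k) ?_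
    (fun k _ => hVq _ _) (fun k _ => hVg _ _) (Real.exp_pos _).le ?_ hCg hCq hCv (by positivity)
    (Real.one_le_exp (by positivity)) n1 n2 n3
  · intro t ht
    -- `t = k T + q`
    have hTpos : 0 < T := hT1
    have hk : t / T ≤ R := by
      rw [Nat.div_le_iff_le_mul_add_pred hTpos]
      calc t ≤ R * T := ht
        _ ≤ T * R + (T - 1) := by rw [mul_comm]; omega
    have g1 := key (t / T) hk
    have g2 := lip_orb S hlip (EE hij x • y.1) (t % T) (t / T * T) y.2 m'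
    have e1 : t % T + t / T * T = t := Nat.mod_add_div' t T
    rw [e1] at g2
    have g3 : Real.exp κ ^ (t % T) ≤ Real.exp (κ * T) := by
      rw [← hKT]
      exact pow_le_pow_right₀ (Real.one_le_exp hκ) (Nat.mod_lt _ hTpos).le
    refine g2.trans ((mul_le_mul g3 g1 (dist0_nonneg _ _ _) (Real.exp_pos _).le).trans ?_)
    exact n1a.trans h4
  · intro k hk
    refine (ev1 (k + 1) (by omega) (by omega)).trans ?_
    refine Real.exp_le_one_iff.2 ?_
    have : (0 : ℝ) ≤ ((k + 1) * T : ℕ) := Nat.cast_nonneg _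
    nlinarith
  · refine (ev1 (C * R) (Nat.one_le_iff_ne_zero.2 (by positivity)) le_rfl).trans ?_
    refine le_trans (le_of_eq ?_) n4
    push_cast
    rfl
  · intro k hk
    have g := tay_orb S htay y T (k * T) m'
    rw [hKT1] at g
    have e1 : T + k * T = (k + 1) * T := by ring
    rw [e1] at g
    refine g.trans ?_
    refine mul_le_mul_of_nonneg_left ?_ (Real.exp_pos _).le
    exact pow_le_pow_left₀ (dist0_nonneg _ _ _) (hw' k hk.le) _
  · change (S.V.jet r hr).V (fp S b (EE hij x • y.1) (0 * T) y.2)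
      (fp S b (EE hij x • y.1) (0 * T) m') =
      (S.V.jet r hr).V (fp S b y.1 (0 * T) y.2) (fp S b y.1 (0 * T) m')
    rw [zero_mul, fp_zero, fp_zero, fp_zero, fp_zero]
  · intro N hN
    change (jc S hE r hr).D (b ^ ((N - 0) * T)) (b ^ (0 * T) • EE hij x • y) *
      s3 (b ^ (0 * T) • EE hij x • y) *
      ((jc S hE r hr).D (b⁻¹ ^ (0 * T)) (b ^ (0 * T) • y) * s3 (b ^ (0 * T) • y)) =
      (jc S hE r hr).D (b ^ ((N - 0) * T)) (b ^ (0 * T) • EE hij x • y) *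
      s3 (b ^ (0 * T) • EE hij x • y)
    rw [zero_mul, pow_zero, pow_zero, one_smul, one_smul, hsec, Matrix.mul_assoc, jc_D S hE r hr 1,
      map_one, S.D_one, one_mul, hidem]
  · intro q N hN k hk
    refine forw_step S hE r hr b T k N hk (EE hij x • y) (hss (k * T) _ ?_)
    fin_cases q
    · exact Or.inl rfl
    · exact Or.inr (Or.inl rfl)
    · exact Or.inr (Or.inr rfl)
  · intro N hN
    change (jc S hE r hr).D (b ^ ((N - N) * T)) (b ^ (N * T) • EE hij x • y) *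
        s1 (b ^ (N * T) • EE hij x • y) +
      (jc S hE r hr).D (b ^ ((N - N) * T)) (b ^ (N * T) • EE hij x • y) *
        s2 (b ^ (N * T) • EE hij x • y) +
      (jc S hE r hr).D (b ^ ((N - N) * T)) (b ^ (N * T) • EE hij x • y) *
        s3 (b ^ (N * T) • EE hij x • y) = 1 - s4 (b ^ (N * T) • EE hij x • y)
    rw [Nat.sub_self, zero_mul, pow_zero, jc_D, map_one, S.D_one, one_mul, one_mul, one_mul,
      ← hsum (N * T)]
    abel
  · intro N hN
    constructor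
    · have g := ev2 (N - 0) (by omega) 0 (Nat.zero_le _)
      refine g.trans (Real.exp_le_exp.2 ?_)
      have a1 : (0 : ℝ) ≤ ((N - 0 : ℕ) : ℝ) := Nat.cast_nonneg _
      have a2 : (0 : ℝ) ≤ e / 8 * (R * T) := by positivity
      have a3 : 0 ≤ δ * ((N - 0 : ℕ) : ℝ) * T := by positivity
      nlinarith
    · have g := ev3 (N - 0) (by omega) 0 (Nat.zero_le _)
      refine g.trans (Real.exp_le_exp.2 ?_)
      have a1 : ((N - 0 : ℕ) : ℝ) ≤ R := by
        rw [Nat.sub_zero]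
        exact_mod_cast hN
      have a2 : e / 8 * ((N - 0 : ℕ) : ℝ) * T ≤ e / 8 * R * T := by gcongr
      nlinarith
  · intro q N hN k hk
    have a0 : (0 : ℝ) ≤ ((N - k : ℕ) : ℝ) := Nat.cast_nonneg _
    have a1 : ((N - k : ℕ) : ℝ) ≤ R := by
      have : N - k ≤ R := by omega
      exact_mod_cast this
    have a2 : e / 8 * ((N - k : ℕ) : ℝ) * T ≤ e / 8 * R * T := by gcongr
    have a3 : Λ * ((N - k : ℕ) : ℝ) * T ≤ Λ * R * T := by gcongr
    have a4 : 0 ≤ Λ * ((N - k : ℕ) : ℝ) * T := by positivity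
    have a5 : 0 ≤ δ * ((N - k : ℕ) : ℝ) * T := by positivity
    have a6 : 0 ≤ e / 8 * ((N - k : ℕ) : ℝ) * T := by positivity
    fin_cases q
    · refine (ev2 (N - k) (by omega) k (by omega)).trans (Real.exp_le_exp.2 ?_)
      nlinarith
    · refine (ev3 (N - k) (by omega) k (by omega)).trans (Real.exp_le_exp.2 ?_)
      nlinarith
    · refine (ev4 (N - k) (by omega) k (by omega)).trans (Real.exp_le_exp.2 ?_)
      nlinarith
  · change S.d (fp S b (EE hij x • y.1) (0 * T) y.2) (fp S b (EE hij x • y.1) (0 * T) m') =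
      S.d (fp S b y.1 (0 * T) y.2) (fp S b y.1 (0 * T) m')
    rw [zero_mul, fp_zero, fp_zero, fp_zero, fp_zero]
  · intro k hk hdk
    have g := tay_orb S htay (EE hij x • y) T (k * T) m'
    rw [hKT1] at g
    have e1 : T + k * T = (k + 1) * T := by ring
    rw [e1] at g
    have e2 : (EE hij x • y).1 = EE hij x • y.1 := by rw [hye]
    have e3 : (EE hij x • y).2 = y.2 := by rw [hye]
    rw [e2, e3] at g
    refine g.trans ?_
    refine mul_le_mul_of_nonneg_left ?_ (Real.exp_pos _).le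
    exact pow_le_pow_left₀ (dist0_nonneg _ _ _) hdk _
  · refine Real.exp_le_exp.2 ?_
    have : (0 : ℝ) ≤ e * (R * T) := by positivity
    nlinarith

end Pool.Agent.H93.SH
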